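import Pool.Agent.AT8.StmtsF
import Pool.Agent.Helper50_PP.Ffa

/-!
# Squad AT8, row LFR: the bound for free inertial quotients
-/

open scoped BigOperators

noncomputable section

namespace Pool.Agent.PP.T8.H36

open Pool.Agent.Helper51_AWC Pool.Agent.Helper79_WRA Pool.Agent.PP Pool.Agent.PP.KF
open Pool.Agent.PP.K9 Pool.Agent.PP.K9.H97 Pool.Agent.PP.H75 Pool.Agent.PP.T3 Pool.Agent.PP.T2

attribute [local instance] Ideal.Quotient.field

theorem lfr (pr2 : T2.Pr2Stmt) (dat : DatStmt) (fni : FniStmt) (fnz : FnzStmt) (fgr : FgrStmt)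
    (cmb : CmbStmt) (fkl : FklStmt) (forr : ForStmt) : LfrStmt := by
  intro ℓ hℓ M _ hM hl2 G _ _ e V γ hLd hV hFr
  have hF : GoodF ℓ (FF M) := H50.fld ℓ hℓ.out M hM
  obtain ⟨N, hN⟩ := pr2 ℓ hl2 G
  obtain ⟨b, d, c, ε, hD⟩ := dat ℓ M hM G e V γ hLd
  obtain ⟨m, u, lam, hu, huo, hl, hlo, hall⟩ := forr ℓ (FF M) hF G e V γ hLd hFr
  let _ : Fintype G := Fintype.ofFinite G
  have hfin : (IrrE M e).Finite := (irr_finite' (G := G)).subset fun _ h => h.1
  let _ : Fintype (IrrE M e) := hfin.fintype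
  obtain ⟨z1, z2, z3⟩ := fnz ℓ M hM hl2 G e V γ b d c ε hD hFr
  have hI : ∀ (i : Fin m) (χ : IrrE M e), ∃ n : ℤ, cl M V b d ε (lam i) χ = n := fun i χ =>
    fni ℓ M hM hl2 G N hN e V γ b d c ε hD hFr χ χ.2.1 (lam i)
  choose n hn using hI
  have hsum : ∀ i j, ∑ᶠ χ ∈ Irr G, cl M V b d ε (lam i) χ *
      starRingEnd ℂ (cl M V b d ε (lam j) χ) = ((∑ k, n i k * n j k : ℤ) : ℂ) := by
    intro i j
    rw [finsum_mem_inter_support_eq' _ (Irr G) (IrrE M e), ← finsum_set_coe_eq_finsum_mem,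
      finsum_eq_sum_of_fintype, Int.cast_sum]
    · refine Finset.sum_congr rfl fun χ _ => ?_
      rw [hn i χ, hn j χ, Int.cast_mul, map_intCast]
    · intro χ hχ
      refine ⟨fun h => ?_, fun h => h.1⟩
      by_contra h'
      refine hχ ?_
      simp only
      rw [z3 (lam i) χ h h', zero_mul]
  have h1 : ∀ i, ∑ k, n i k * n i k = 1 + (ix V γ : ℤ) := by
    intro i
    have h := (fgr ℓ M hM hl2 G e V γ b d c ε hD hFr (lam i) (lam i) (hl i) (hl i)).1 rfl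
    rw [hsum] at h
    exact_mod_cast h
  have h2 : ∀ i j, i ≠ j → ∑ k, n i k * n j k = (ix V γ : ℤ) := by
    intro i j hij
    have h := (fgr ℓ M hM hl2 G e V γ b d c ε hD hFr (lam i) (lam j) (hl i) (hl j)).2
      (hlo j i hij.symm)
    rw [hsum] at h
    exact_mod_cast h
  have h3 : ∀ k, ∃ i, n i k ≠ 0 := by
    intro χ
    obtain ⟨mu, hmu, h0⟩ := z2 hV χ χ.2
    obtain ⟨i, t, ht, hT⟩ := hall mu hmu
    refine ⟨i, fun h => h0 ?_⟩
    rw [z1 t ht (lam i) mu hT χ χ.2.1, hn i χ, h]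
    simp
  have hc := cmb (Fin m) (IrrE M e) n (ix V γ) h1 h2 h3
  have hr : ∀ i, Rg V γ (u i) := by
    intro i
    refine ⟨(hu i).1, (hu i).2, fun t ht => ?_⟩
    exact hFr t ht.1 (u i) (hu i).1 (hu i).2 (Subgroup.mem_centralizer_iff.1 ht.2 (u i) rfl).symm
  have hk := fkl ℓ M hM G e V γ b d c ε hD (Fin m) u hr huo
  rw [Set.ncard_eq_toFinset_card', Set.toFinset_card] at hk
  omega

end Pool.Agent.PP.T8.H36
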